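import Pool.Agent.Lib52.NLSn.Defs

/-!
# Module F2 : derivative bounds for radial functions
-/

set_option autoImplicit false

namespace NLSn

open MeasureTheory Filter Topology Set

namespace F2

variable {V : Type*} [NormedAddCommGroup V] [InnerProductSpace ℝ V]

/-- scaling of the derivatives of the norm -/
theorem scale (i : ℕ) {x : V} (hx : x ≠ 0) {t : ℝ} (ht : 0 < t) :
    ‖iteratedFDeriv ℝ i (fun y : V => ‖y‖) x‖ ≤
      t⁻¹ * (‖iteratedFDeriv ℝ i (fun y : V => ‖y‖) (t • x)‖ * t ^ i) := by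
  let g : V ≃L[ℝ] V := ContinuousLinearEquiv.smulLeft (Units.mk0 t ht.ne')
  have hg : ∀ y, g y = t • y := fun y => rfl
  have h1 : (fun y : V => ‖y‖) = t⁻¹ • ((fun y : V => ‖y‖) ∘ g) := by
    funext y
    simp only [Pi.smul_apply, Function.comp_apply, hg, norm_smul, Real.norm_eq_abs, abs_of_pos ht,
      smul_eq_mul]
    field_simp
  have hsm : ContDiffAt ℝ i ((fun y : V => ‖y‖) ∘ g) x := by
    apply ContDiffAt.comp
    · exact contDiffAt_norm ℝ (by rw [hg]; exact smul_ne_zero ht.ne' hx)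
    · exact g.contDiff.contDiffAt
  have h2 := iteratedFDeriv_const_smul_apply (a := t⁻¹) hsm
  rw [← h1] at h2
  rw [h2, norm_smul, Real.norm_eq_abs, abs_of_pos (inv_pos.mpr ht)]
  apply mul_le_mul_of_nonneg_left _ (inv_pos.mpr ht).le
  have h3 := g.iteratedFDerivWithin_comp_right (fun y : V => ‖y‖) uniqueDiffOn_univ
    (x := x) (mem_univ _) i
  rw [preimage_univ, iteratedFDerivWithin_univ, iteratedFDerivWithin_univ] at h3
  rw [h3]
  refine (ContinuousMultilinearMap.norm_compContinuousLinearMap_le _ _).trans ?_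
  rw [hg]
  apply mul_le_mul_of_nonneg_left _ (norm_nonneg _)
  rw [Finset.prod_const, Finset.card_univ, Fintype.card_fin]
  apply pow_le_pow_left₀ (norm_nonneg _)
  apply ContinuousLinearMap.opNorm_le_bound _ ht.le
  intro y
  change ‖g y‖ ≤ _
  rw [hg, norm_smul, Real.norm_eq_abs, abs_of_pos ht]

/-- the derivatives of the norm are bounded away from the origin -/
theorem norm_bound [FiniteDimensional ℝ V] (i : ℕ) (hi : 1 ≤ i) : ∃ B : ℝ, 0 ≤ B ∧ ∀ x : V,
    1 ≤ ‖x‖ → ‖iteratedFDeriv ℝ i (fun y : V => ‖y‖) x‖ ≤ B := by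
  have hcont : ContinuousOn (iteratedFDeriv ℝ i (fun y : V => ‖y‖)) (Metric.sphere (0 : V) 1) := by
    intro x hx
    have hx0 : x ≠ 0 := by
      rintro rfl
      simp at hx
    exact ((contDiffAt_norm ℝ (n := i) hx0).continuousAt_iteratedFDeriv
      le_rfl).continuousWithinAt
  obtain ⟨B, hB⟩ := (isCompact_sphere (0 : V) 1).exists_bound_of_continuousOn hcont
  refine ⟨max B 0, le_max_right _ _, fun x hx => ?_⟩
  have hx0 : x ≠ 0 := by
    rintro rfl
    simp at hx
    linarith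
  have hpos : 0 < ‖x‖ := by linarith
  have h1 := scale i hx0 (inv_pos.mpr hpos)
  rw [inv_inv] at h1
  have h2 : ‖x‖⁻¹ • x ∈ Metric.sphere (0 : V) 1 := by
    rw [mem_sphere_zero_iff_norm, norm_smul, norm_inv, norm_norm, inv_mul_cancel₀ hpos.ne']
  have h3 := hB _ h2
  refine h1.trans ?_
  obtain ⟨j, rfl⟩ : ∃ j, i = j + 1 := ⟨i - 1, by omega⟩
  have h4 : ‖x‖ * (‖iteratedFDeriv ℝ (j + 1) (fun y : V => ‖y‖) (‖x‖⁻¹ • x)‖ * ‖x‖⁻¹ ^ (j + 1)) =
      ‖iteratedFDeriv ℝ (j + 1) (fun y : V => ‖y‖) (‖x‖⁻¹ • x)‖ * ‖x‖⁻¹ ^ j := by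
    rw [pow_succ]
    field_simp
  rw [h4]
  have h5 : ‖x‖⁻¹ ^ j ≤ 1 := pow_le_one₀ (by positivity) (inv_le_one_of_one_le₀ hx)
  calc _ ≤ max B 0 * 1 := by
        apply mul_le_mul (h3.trans (le_max_left _ _)) h5 (by positivity) (le_max_right _ _)
    _ = _ := mul_one _

/-- smoothness of radial functions which are constant near the origin -/
theorem contDiff_radial {U : ℝ → ℝ} {r0 K : ℝ} (h0 : 0 < r0) (hU : ContDiff ℝ (⊤ : ℕ∞) U)
    (hK : ∀ r, r ≤ r0 → U r = K) : ContDiff ℝ (⊤ : ℕ∞) (fun x : V => U ‖x‖) := by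
  rw [contDiff_iff_contDiffAt]
  intro x
  by_cases hx : x = 0
  · have h1 : (fun x : V => U ‖x‖) =ᶠ[𝓝 x] fun _ => K := by
      rw [hx]
      filter_upwards [Metric.ball_mem_nhds (0 : V) h0] with y hy
      rw [mem_ball_zero_iff] at hy
      exact hK _ hy.le
    exact contDiffAt_const.congr_of_eventuallyEq h1
  · exact hU.contDiffAt.comp x (contDiffAt_norm ℝ hx)

end F2

/-- Module F2 -/
theorem stmtF2 : StmtF2 := by
  intro n _ U r0 r1 K h0 hU hK hbd k
  choose C hC using hbd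
  set R : ℝ := max r1 2 with hR
  have hsm := F2.contDiff_radial (V := E n) h0 hU hK
  -- near the origin
  have hcont : Continuous (iteratedFDeriv ℝ k (fun x : E n => U ‖x‖)) :=
    hsm.continuous_iteratedFDeriv (m := k) (by exact_mod_cast le_top)
  obtain ⟨M, hM⟩ := (isCompact_closedBall (0 : E n) R).exists_bound_of_continuousOn
    hcont.continuousOn
  -- bounds on the derivatives of the norm
  have hB : ∀ i : ℕ, ∃ B : ℝ, 0 ≤ B ∧ (1 ≤ i → ∀ x : E n, 1 ≤ ‖x‖ →
      ‖iteratedFDeriv ℝ i (fun y : E n => ‖y‖) x‖ ≤ B) := by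
    intro i
    by_cases hi : 1 ≤ i
    · obtain ⟨B, hB0, hB⟩ := F2.norm_bound (V := E n) i hi
      exact ⟨B, hB0, fun _ => hB⟩
    · exact ⟨0, le_rfl, fun h => absurd h hi⟩
  choose B hB0 hBb using hB
  set Dd : ℝ := 1 + ∑ i ∈ Finset.range (k + 1), B i with hDd
  have hDd1 : 1 ≤ Dd := by
    have : 0 ≤ ∑ i ∈ Finset.range (k + 1), B i := Finset.sum_nonneg (fun i _ => hB0 i)
    linarith
  set Cs : ℝ := ∑ i ∈ Finset.range (k + 1), |C i| with hCs
  have hCs0 : 0 ≤ Cs := Finset.sum_nonneg (fun i _ => abs_nonneg _)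
  have hfac : ∀ x : E n, ‖x‖ ≤ R → 1 ≤ √(1 + R ^ 2) / √(1 + ‖x‖ ^ 2) := by
    intro x hx
    rw [le_div_iff₀ (by positivity), one_mul]
    apply Real.sqrt_le_sqrt
    have := pow_le_pow_left₀ (norm_nonneg x) hx 2
    linarith
  refine ⟨|M| * √(1 + R ^ 2) + (k.factorial : ℝ) * Cs * Dd ^ k * √2, fun x => ?_⟩
  have hsq : 0 < √(1 + ‖x‖ ^ 2) := by positivity
  rcases le_or_gt ‖x‖ R with hx | hx
  · have h1 : ‖iteratedFDeriv ℝ k (fun x : E n => U ‖x‖) x‖ ≤ M :=
      hM x (by rw [mem_closedBall_zero_iff]; exact hx)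
    rw [le_div_iff₀ hsq]
    have h2 : √(1 + ‖x‖ ^ 2) ≤ √(1 + R ^ 2) := by
      apply Real.sqrt_le_sqrt
      have := pow_le_pow_left₀ (norm_nonneg x) hx 2
      linarith
    have h3 : ‖iteratedFDeriv ℝ k (fun x : E n => U ‖x‖) x‖ * √(1 + ‖x‖ ^ 2) ≤
        |M| * √(1 + R ^ 2) :=
      mul_le_mul (h1.trans (le_abs_self M)) h2 hsq.le (abs_nonneg _)
    have h4 : 0 ≤ (k.factorial : ℝ) * Cs * Dd ^ k * √2 := by positivity
    linarith
  · have hR1 : r1 ≤ R := le_max_left _ _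
    have hR2 : 2 ≤ R := le_max_right _ _
    have hxpos : 0 < ‖x‖ := by linarith
    let s : Set (E n) := {y | 1 < ‖y‖}
    have hso : IsOpen s := isOpen_lt continuous_const continuous_norm
    have hxs : x ∈ s := by change 1 < ‖x‖; linarith
    have hfs : ContDiffOn ℝ (⊤ : ℕ∞) (fun y : E n => ‖y‖) s := by
      intro y hy
      have hy0 : y ≠ 0 := by
        rintro rfl
        have hy' : (1 : ℝ) < ‖(0 : E n)‖ := hy
        rw [norm_zero] at hy'
        linarith
      exact (contDiffAt_norm ℝ hy0).contDiffWithinAt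
    have h1 := norm_iteratedFDerivWithin_comp_le (n := k) (hU.contDiffOn (s := univ)) hfs
      (by exact_mod_cast le_top) uniqueDiffOn_univ hso.uniqueDiffOn (mapsTo_univ _ _) hxs
      (C := Cs / ‖x‖) (D := Dd) (by
        intro i hi
        rw [iteratedFDerivWithin_univ, norm_iteratedFDeriv_eq_norm_iteratedDeriv,
          Real.norm_eq_abs]
        refine (hC i ‖x‖ (by linarith)).trans ?_
        apply div_le_div_of_nonneg_right _ hxpos.le
        refine (le_abs_self _).trans ?_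
        exact Finset.single_le_sum (f := fun i => |C i|) (fun j _ => abs_nonneg _)
          (Finset.mem_range.mpr (by omega))) (by
        intro i hi1 hi2
        rw [iteratedFDerivWithin_of_isOpen i hso hxs]
        refine (hBb i hi1 x (by linarith)).trans ?_
        have h2 : B i ≤ Dd := by
          have := Finset.single_le_sum (f := B) (fun j _ => hB0 j)
            (Finset.mem_range.mpr (show i < k + 1 by omega))
          linarith
        refine h2.trans ?_
        calc Dd = Dd ^ 1 := (pow_one _).symm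
          _ ≤ Dd ^ i := pow_le_pow_right₀ hDd1 hi1)
    rw [iteratedFDerivWithin_of_isOpen k hso hxs] at h1
    have h2 : ‖iteratedFDeriv ℝ k (fun x : E n => U ‖x‖) x‖ ≤
        (k.factorial : ℝ) * (Cs / ‖x‖) * Dd ^ k := h1
    rw [le_div_iff₀ hsq]
    have h3 : √(1 + ‖x‖ ^ 2) ≤ √2 * ‖x‖ := by
      rw [Real.sqrt_le_left (by positivity), mul_pow, Real.sq_sqrt (by norm_num)]
      nlinarith
    have h4 : ‖iteratedFDeriv ℝ k (fun x : E n => U ‖x‖) x‖ * √(1 + ‖x‖ ^ 2) ≤
        (k.factorial : ℝ) * (Cs / ‖x‖) * Dd ^ k * (√2 * ‖x‖) :=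
      mul_le_mul h2 h3 hsq.le (by positivity)
    have h5 : (k.factorial : ℝ) * (Cs / ‖x‖) * Dd ^ k * (√2 * ‖x‖) =
        (k.factorial : ℝ) * Cs * Dd ^ k * √2 := by
      field_simp
    have h6 : 0 ≤ |M| * √(1 + R ^ 2) := by positivity
    linarith

end NLSn
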