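import Pool.Agent.Lib52.NLSn.Final
import Pool.Agent.Lib_helper69.NLSn.F2
import Pool.Agent.Lib_helper93.NLSn.F1

/-!
# MODULE H1: the standing wave
-/

namespace NLSn

open MeasureTheory Filter Topology Set

noncomputable section

namespace H1

/-- the time dependent factor -/
def w (ε t : ℝ) : ℂ := Complex.exp (-(Complex.I * t)) * ((√ε : ℝ) : ℂ)

/-- the standing wave -/
def psi {n : ℕ} (U : ℝ → ℝ) (ε t : ℝ) (x : E n) : ℂ := (U ‖x‖) • w ε t

lemma norm_exp (t : ℝ) : ‖Complex.exp (-(Complex.I * t))‖ = 1 := by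
  have : -(Complex.I * (t : ℂ)) = ((-t : ℝ) : ℂ) * Complex.I := by push_cast; ring
  rw [this, Complex.norm_exp_ofReal_mul_I]

lemma norm_w (ε t : ℝ) : ‖w ε t‖ = √ε := by
  unfold w
  rw [norm_mul, norm_exp, one_mul, Complex.norm_real, Real.norm_eq_abs,
    abs_of_nonneg (Real.sqrt_nonneg _)]

lemma norm_psi {n : ℕ} (U : ℝ → ℝ) (ε t : ℝ) (x : E n) :
    ‖psi U ε t x‖ = |U ‖x‖| * √ε := by
  unfold psi
  rw [norm_smul, norm_w, Real.norm_eq_abs]

lemma fderiv_psi {n : ℕ} {U : ℝ → ℝ} (ε t : ℝ)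
    (hg : ContDiff ℝ (⊤ : ℕ∞) (fun x : E n => U ‖x‖)) (x : E n) :
    fderiv ℝ (psi U ε t) x = (fderiv ℝ (fun x : E n => U ‖x‖) x).smulRight (w ε t) := by
  have h1 : HasFDerivAt (fun x : E n => U ‖x‖) (fderiv ℝ (fun x : E n => U ‖x‖) x) x :=
    ((hg.differentiable (by simp)) x).hasFDerivAt
  exact (h1.smul_const (w ε t)).fderiv

lemma norm_fderiv_psi {n : ℕ} {U : ℝ → ℝ} (ε t : ℝ)
    (hg : ContDiff ℝ (⊤ : ℕ∞) (fun x : E n => U ‖x‖)) (x : E n) :
    ‖fderiv ℝ (psi U ε t) x‖ = ‖fderiv ℝ (fun x : E n => U ‖x‖) x‖ * √ε := by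
  rw [fderiv_psi ε t hg, ContinuousLinearMap.norm_smulRight_apply, norm_w]

lemma contDiff_psi_x {n : ℕ} {U : ℝ → ℝ} (ε t : ℝ)
    (hg : ContDiff ℝ (⊤ : ℕ∞) (fun x : E n => U ‖x‖)) :
    ContDiff ℝ (⊤ : ℕ∞) (psi (n := n) U ε t) := by
  unfold psi
  exact hg.smul contDiff_const

lemma lap_psi {n : ℕ} {U : ℝ → ℝ} (ε t : ℝ)
    (hg : ContDiff ℝ (⊤ : ℕ∞) (fun x : E n => U ‖x‖)) (x : E n) :
    lap (psi U ε t) x = (lap (fun x : E n => U ‖x‖) x) • w ε t := by
  unfold lap
  rw [Finset.sum_smul]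
  apply Finset.sum_congr rfl
  intro i _
  have h22 : ((2 : ℕ) : WithTop ℕ∞) ≤ ((⊤ : ℕ∞) : WithTop ℕ∞) := by
    have h : ((2 : ℕ) : ℕ∞) ≤ ⊤ := le_top
    have h2 := (WithTop.coe_le_coe (α := ℕ∞)).2 h
    exact h2
  have h1 := ContinuousLinearMap.iteratedFDeriv_comp_left
    ((1 : ℝ →L[ℝ] ℝ).smulRight (w ε t)) (f := fun x : E n => U ‖x‖) (x := x)
    (hg.contDiffAt) (i := 2) h22
  have h2 : psi (n := n) U ε t =
      ⇑((1 : ℝ →L[ℝ] ℝ).smulRight (w ε t)) ∘ (fun x : E n => U ‖x‖) := by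
    funext x
    simp [psi]
  rw [h2, h1]
  simp

/-- decay consequences -/
lemma int_sq {n : ℕ} {g : E n → ℝ} {C a : ℝ} (hc : Continuous g) (ha : (n : ℝ) + 1 ≤ 2 * a)
    (h : ∀ x, |g x| ≤ C * (1 + ‖x‖) ^ (-a)) : Integrable (fun x => g x ^ 2) volume := by
  have h0 : Integrable (fun x : E n => (1 + ‖x‖) ^ (-((n : ℝ) + 1))) volume := by
    apply integrable_one_add_norm
    simp
  refine Integrable.mono' (h0.const_mul (C ^ 2)) (hc.pow 2).aestronglyMeasurable
    (Eventually.of_forall fun x => ?_)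
  rw [Real.norm_eq_abs, abs_of_nonneg (sq_nonneg _), ← sq_abs]
  have h1 : (1 : ℝ) ≤ 1 + ‖x‖ := by linarith [norm_nonneg x]
  calc |g x| ^ 2 ≤ (C * (1 + ‖x‖) ^ (-a)) ^ 2 := by
        have := h x
        gcongr
    _ = C ^ 2 * (1 + ‖x‖) ^ (-(2 * a)) := by
        rw [mul_pow, ← Real.rpow_natCast ((1 + ‖x‖) ^ (-a)) 2, ← Real.rpow_mul (by linarith)]
        congr 2
        push_cast
        ring
    _ ≤ C ^ 2 * (1 + ‖x‖) ^ (-((n : ℝ) + 1)) := by
        apply mul_le_mul_of_nonneg_left _ (sq_nonneg _)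
        apply Real.rpow_le_rpow_of_exponent_le h1
        linarith

/-- the potential: common radius for the derivative bounds -/
lemma common_radius {v : ℝ → ℝ} (hv : ContDiff ℝ (⊤ : ℕ∞) v)
    (h : ∀ k : ℕ, ∃ C r1 : ℝ, ∀ r, r1 ≤ r → |iteratedDeriv k v r| ≤ C / r) (k : ℕ) :
    ∃ C, ∀ r, (1 : ℝ) ≤ r → |iteratedDeriv k v r| ≤ C / r := by
  obtain ⟨C, r1, hC⟩ := h k
  have hcont : Continuous (iteratedDeriv k v) := hv.continuous_iteratedDeriv k (by exact_mod_cast le_top)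
  obtain ⟨M, hM⟩ := (isCompact_Icc (a := (1 : ℝ)) (b := max 1 r1)).exists_bound_of_continuousOn
    (f := iteratedDeriv k v) hcont.continuousOn
  refine ⟨max C (|M| * max 1 r1), fun r hr => ?_⟩
  have hr0 : 0 < r := by linarith
  rcases le_total r1 r with h1 | h1
  · refine (hC r h1).trans ?_
    gcongr
    exact le_max_left _ _
  · have h2 := hM r ⟨hr, le_max_of_le_right h1⟩
    rw [Real.norm_eq_abs] at h2
    rw [le_div_iff₀ hr0]
    calc |iteratedDeriv k v r| * r ≤ |M| * max 1 r1 :=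
          mul_le_mul (h2.trans (le_abs_self M)) (le_max_of_le_right h1) hr0.le (abs_nonneg M)
      _ ≤ _ := le_max_right _ _

end H1

open H1 in
/-- MODULE H1 -/
theorem stmtH1 : StmtH1 := by
  intro n m hn hm W U hP δ hδ hδm η hη
  obtain ⟨r0, K, hr0, hK, hUc, hWc⟩ := hP.core
  obtain ⟨a, ha, hWa⟩ := hP.posW
  obtain ⟨C, hC⟩ := hP.decU
  set A : ℝ := ((n : ℝ) - 1) / 2 + 2 * m with hA
  have hn1 : (1 : ℝ) ≤ n := by exact_mod_cast hn
  have hm1 : (1 : ℝ) ≤ m := by exact_mod_cast hm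
  have hA2 : (n : ℝ) + 1 ≤ 2 * A := by rw [hA]; linarith
  have hA1 : 1 ≤ 2 * A := by linarith
  obtain ⟨hg, hlap, hfd⟩ := stmtF1 n hn U r0 K hr0 hP.smoothU hUc
  have hgc : Continuous (fun x : E n => U ‖x‖) := hg.continuous
  have hfc : Continuous (fun x : E n => fderiv ℝ (fun x : E n => U ‖x‖) x) :=
    hg.continuous_fderiv (by simp)
  have hI1 : Integrable (fun x : E n => (U ‖x‖) ^ 2) volume :=
    int_sq hgc hA2 (fun x => (hC ‖x‖ (norm_nonneg x)).1)
  have hI2 : Integrable (fun x : E n => ‖fderiv ℝ (fun x : E n => U ‖x‖) x‖ ^ 2) volume := by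
    refine int_sq hfc.norm hA2 (C := C) (fun x => ?_)
    rw [abs_norm, hfd x]
    exact (hC ‖x‖ (norm_nonneg x)).2
  set M : ℝ := ∫ x : E n, ((U ‖x‖) ^ 2 + ‖fderiv ℝ (fun x : E n => U ‖x‖) x‖ ^ 2) with hM
  have hM0 : 0 ≤ M := by
    rw [hM]
    apply integral_nonneg
    intro x
    positivity
  refine ⟨min (a / (C ^ 2 + 1)) (η / (M + 1)), by positivity, fun ε hε hεlt => ?_⟩
  have he1 : ε < a / (C ^ 2 + 1) := lt_of_lt_of_le hεlt (min_le_left _ _)
  have he2 : ε < η / (M + 1) := lt_of_lt_of_le hεlt (min_le_right _ _)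
  have he1' : ε * (C ^ 2 + 1) < a := by rwa [lt_div_iff₀ (by positivity)] at he1
  have he2' : ε * (M + 1) < η := by rwa [lt_div_iff₀ (by positivity)] at he2
  have hs2 : √ε ^ 2 = ε := Real.sq_sqrt hε.le
  have hnorm : ∀ t, ∀ x : E n, ‖psi U ε t x‖ ^ 2 + ‖fderiv ℝ (psi U ε t) x‖ ^ 2 =
      ε * ((U ‖x‖) ^ 2 + ‖fderiv ℝ (fun x : E n => U ‖x‖) x‖ ^ 2) := by
    intro t x
    rw [norm_psi, norm_fderiv_psi ε t hg, mul_pow, mul_pow, hs2, sq_abs]
    ring
  have hinteg : ∀ t, ∫ x : E n, (‖psi U ε t x‖ ^ 2 + ‖fderiv ℝ (psi U ε t) x‖ ^ 2) = ε * M := by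
    intro t
    rw [hM, ← integral_const_mul]
    congr 1
    funext x
    exact hnorm t x
  have hvsm : ContDiff ℝ (⊤ : ℕ∞) (fun r => W r - ε * U r ^ 2) :=
    hP.smoothW.sub (contDiff_const.mul (hP.smoothU.pow 2))
  have hvc : ∀ r, r ≤ r0 → (fun r => W r - ε * U r ^ 2) r = 1 - ε * K ^ 2 := by
    intro r hr
    simp only
    rw [hUc r hr, hWc r hr]
  refine ⟨⟨F2.contDiff_radial hr0 hvsm hvc, fun x => ?_, ?_⟩, psi U ε, ?_, ⟨0, 0, ?_⟩, ?_, ?_⟩
  · -- positivity
    have h1 := hWa ‖x‖ (norm_nonneg x)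
    have h2 := (hC ‖x‖ (norm_nonneg x)).1
    have hx1 : (1 : ℝ) ≤ 1 + ‖x‖ := by linarith [norm_nonneg x]
    have h3 : U ‖x‖ ^ 2 ≤ C ^ 2 * (1 + ‖x‖)⁻¹ := by
      rw [← sq_abs]
      calc |U ‖x‖| ^ 2 ≤ (C * (1 + ‖x‖) ^ (-A)) ^ 2 := by gcongr
        _ = C ^ 2 * (1 + ‖x‖) ^ (-(2 * A)) := by
            rw [mul_pow, ← Real.rpow_natCast ((1 + ‖x‖) ^ (-A)) 2, ← Real.rpow_mul (by linarith)]
            congr 2
            push_cast
            ring
        _ ≤ C ^ 2 * (1 + ‖x‖) ^ (-(1 : ℝ)) := by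
            apply mul_le_mul_of_nonneg_left _ (sq_nonneg _)
            apply Real.rpow_le_rpow_of_exponent_le hx1
            linarith
        _ = C ^ 2 * (1 + ‖x‖)⁻¹ := by rw [Real.rpow_neg_one]
    have h4 : ε * U ‖x‖ ^ 2 ≤ ε * C ^ 2 * (1 + ‖x‖)⁻¹ := by
      calc ε * U ‖x‖ ^ 2 ≤ ε * (C ^ 2 * (1 + ‖x‖)⁻¹) := by gcongr
        _ = _ := by ring
    have h5 : ε * C ^ 2 * (1 + ‖x‖)⁻¹ < a * (1 + ‖x‖)⁻¹ := by
      apply mul_lt_mul_of_pos_right _ (by positivity)
      nlinarith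
    rw [div_eq_mul_inv] at h1
    simp only
    linarith
  · -- derivative bounds
    exact stmtF2 n hn (fun r => W r - ε * U r ^ 2) r0 1 (1 - ε * K ^ 2) hr0 hvsm hvc
      (common_radius hvsm (hP.decV ε))
  · -- bounded solution
    refine ⟨?_, ?_, ?_, ⟨ε * M, fun t => (hinteg t).le⟩, ?_⟩
    · -- smooth
      have h1 : ContDiff ℝ (⊤ : ℕ∞) (fun p : ℝ × E n => U ‖p.2‖) := hg.comp contDiff_snd
      have h2 : ContDiff ℝ (⊤ : ℕ∞) (fun p : ℝ × E n => w ε p.1) := by
        unfold w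
        apply ContDiff.mul _ contDiff_const
        apply ContDiff.cexp
        apply ContDiff.neg
        apply ContDiff.mul contDiff_const
        exact Complex.ofRealCLM.contDiff.comp contDiff_fst
      exact h1.smul h2
    · -- equation
      intro t x
      have h1 : deriv (fun τ => psi U ε τ x) t = -Complex.I * psi U ε t x := by
        have h2 : HasDerivAt (fun τ : ℝ => -(Complex.I * (τ : ℂ))) (-Complex.I) t := by
          have h0 := ((Complex.ofRealCLM.hasDerivAt (x := t)).const_mul Complex.I).neg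
          refine HasDerivAt.congr_deriv h0 ?_
          simp
        have h3 : HasDerivAt (fun τ => psi U ε τ x) ((U ‖x‖) •
            (Complex.exp (-(Complex.I * t)) * -Complex.I * ((√ε : ℝ) : ℂ))) t :=
          ((h2.cexp).mul_const ((√ε : ℝ) : ℂ)).const_smul (U ‖x‖)
        rw [h3.deriv]
        unfold psi w
        simp only [Complex.real_smul]
        ring
      have h7 : lap (fun x : E n => U ‖x‖) x = (W ‖x‖ - 1) * U ‖x‖ := by
        rw [hlap x]
        rcases (norm_nonneg x).eq_or_lt with h0 | h0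
        · rw [← h0, hWc 0 hr0.le]
          have hd : deriv U =ᶠ[𝓝 0] fun _ => 0 := by
            have h8 : ∀ᶠ r in 𝓝 (0 : ℝ), r < r0 := Iio_mem_nhds hr0
            filter_upwards [h8] with r hr
            have h9 : U =ᶠ[𝓝 r] fun _ => K := by
              filter_upwards [Iio_mem_nhds hr] with s hs
              exact hUc s (le_of_lt hs)
            rw [h9.deriv_eq]
            simp
          rw [hd.deriv_eq]
          simp
        · exact hP.eqn ‖x‖ h0
      rw [h1, lap_psi ε t hg, h7, norm_psi]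
      have h5 : (((|U ‖x‖| * √ε : ℝ)) : ℂ) ^ 2 = ((ε * U ‖x‖ ^ 2 : ℝ) : ℂ) := by
        rw [← Complex.ofReal_pow, mul_pow, sq_abs, hs2]
        congr 1
        ring
      rw [h5]
      have h6 : Complex.I * (-Complex.I * psi U ε t x) = psi U ε t x := by
        rw [← mul_assoc, mul_neg, Complex.I_mul_I, neg_neg, one_mul]
      rw [h6]
      unfold psi
      simp only [Complex.real_smul]
      push_cast
      ring
    · -- memH1
      intro t
      have hc1 := (contDiff_psi_x ε t hg).continuous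
      have hc2 : Continuous (fderiv ℝ (psi (n := n) U ε t)) :=
        (contDiff_psi_x ε t hg).continuous_fderiv (by simp)
      constructor
      · rw [memLp_two_iff_integrable_sq_norm hc1.aestronglyMeasurable]
        refine (hI1.const_mul ε).congr (Eventually.of_forall fun x => ?_)
        simp only
        rw [norm_psi, mul_pow, hs2, sq_abs]
        ring
      · rw [memLp_two_iff_integrable_sq_norm hc2.aestronglyMeasurable]
        refine (hI2.const_mul ε).congr (Eventually.of_forall fun x => ?_)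
        simp only
        rw [norm_fderiv_psi ε t hg, mul_pow, hs2]
        ring
    · -- continuity in H1
      intro t₀
      have h1 : ∀ t, ∫ x : E n, (‖psi U ε t x - psi U ε t₀ x‖ ^ 2 +
          ‖fderiv ℝ (psi U ε t) x - fderiv ℝ (psi U ε t₀) x‖ ^ 2) =
          ‖w ε t - w ε t₀‖ ^ 2 * M := by
        intro t
        rw [hM, ← integral_const_mul]
        congr 1
        funext x
        have e1 : psi U ε t x - psi U ε t₀ x = (U ‖x‖) • (w ε t - w ε t₀) := by
          unfold psi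
          rw [smul_sub]
        have e2 : fderiv ℝ (psi U ε t) x - fderiv ℝ (psi U ε t₀) x =
            (fderiv ℝ (fun x : E n => U ‖x‖) x).smulRight (w ε t - w ε t₀) := by
          rw [fderiv_psi ε t hg, fderiv_psi ε t₀ hg]
          ext v
          simp [smul_sub]
        rw [e1, e2, norm_smul, ContinuousLinearMap.norm_smulRight_apply, Real.norm_eq_abs,
          mul_pow, mul_pow, sq_abs]
        ring
      simp only [h1]
      have h2 : Continuous (fun t : ℝ => ‖w ε t - w ε t₀‖ ^ 2 * M) := by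
        unfold w
        fun_prop
      have h3 := h2.tendsto t₀
      simpa using h3
  · -- nonzero
    rw [← norm_ne_zero_iff, norm_psi, norm_zero, hUc 0 hr0.le]
    have := Real.sqrt_pos.2 hε
    positivity
  · -- localized
    have hle : ∀ x : E n, ((√(1 + ‖x‖ ^ 2)) ^ δ * (|U ‖x‖| * √ε)) ^ 2 ≤
        (ε * C ^ 2) * (1 + ‖x‖) ^ (-((n : ℝ) + 1)) := by
      intro x
      have hx0 := norm_nonneg x
      have hx1 : (1 : ℝ) ≤ 1 + ‖x‖ := by linarith
      have h2 := (hC ‖x‖ hx0).1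
      have hsq : √(1 + ‖x‖ ^ 2) ≤ 1 + ‖x‖ := by
        rw [Real.sqrt_le_left (by linarith)]
        nlinarith
      have h3 : (√(1 + ‖x‖ ^ 2)) ^ δ ≤ (1 + ‖x‖) ^ δ :=
        Real.rpow_le_rpow (Real.sqrt_nonneg _) hsq hδ.le
      have hCn : 0 ≤ C * (1 + ‖x‖) ^ (-A) := le_trans (abs_nonneg _) h2
      calc ((√(1 + ‖x‖ ^ 2)) ^ δ * (|U ‖x‖| * √ε)) ^ 2
          ≤ ((1 + ‖x‖) ^ δ * ((C * (1 + ‖x‖) ^ (-A)) * √ε)) ^ 2 := by
            gcongr
        _ = (ε * C ^ 2) * ((1 + ‖x‖) ^ (δ + -A)) ^ 2 := by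
            rw [Real.rpow_add (by linarith)]
            have : √ε ^ 2 = ε := hs2
            calc _ = √ε ^ 2 * C ^ 2 * ((1 + ‖x‖) ^ δ * (1 + ‖x‖) ^ (-A)) ^ 2 := by ring
              _ = _ := by rw [this]
        _ = (ε * C ^ 2) * (1 + ‖x‖) ^ ((δ + -A) * 2) := by
            rw [← Real.rpow_natCast ((1 + ‖x‖) ^ (δ + -A)) 2, ← Real.rpow_mul (by linarith)]
            norm_num
        _ ≤ (ε * C ^ 2) * (1 + ‖x‖) ^ (-((n : ℝ) + 1)) := by
            apply mul_le_mul_of_nonneg_left _ (by positivity)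
            apply Real.rpow_le_rpow_of_exponent_le hx1
            rw [hA]
            linarith
    have h0 : Integrable (fun x : E n => (1 + ‖x‖) ^ (-((n : ℝ) + 1))) volume := by
      apply integrable_one_add_norm
      simp
    have hint : Integrable (fun x : E n => ((√(1 + ‖x‖ ^ 2)) ^ δ * (|U ‖x‖| * √ε)) ^ 2)
        volume := by
      refine Integrable.mono' (h0.const_mul (ε * C ^ 2)) ?_ (Eventually.of_forall fun x => ?_)
      · apply Continuous.aestronglyMeasurable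
        apply Continuous.pow
        apply Continuous.mul
        · apply Continuous.rpow_const
          · fun_prop
          · intro x
            left
            positivity
        · exact (hgc.abs).mul continuous_const
      · rw [Real.norm_eq_abs, abs_of_nonneg (sq_nonneg _)]
        exact hle x
    refine ⟨∫ x : E n, ((√(1 + ‖x‖ ^ 2)) ^ δ * (|U ‖x‖| * √ε)) ^ 2, fun t => ?_⟩
    simp only [norm_psi]
    exact ⟨hint, le_rfl⟩
  · -- small norm
    intro t
    rw [hinteg t]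
    nlinarith

end

end NLSn
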